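import Pool.Agent.helper15.P2.SpecA2
import Pool.Agent.helper80.P2.PSC
import Pool.Agent.helper5.P2.INTB
import Pool.Agent.helper85.P2.INTM
import Pool.Agent.helper53.P2.MAU
import Pool.Agent.helper71.P2.STO

set_option autoImplicit false

/-! Row p2:ACL (MP_063734_an): change of the level in a box. -/

open scoped ContDiff Topology
open MeasureTheory Filter Set Metric MvPolynomial Pool.Agent.helper37.QA

namespace Pool.Agent.P2A

open Pool.Agent.P2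

/-! ### the chart -/

/-- origin of the chart -/
def ACL_c0 (ι : Fin 2) : E3 := if ι = 0 then ![1, 0, 0] else ![0, 1, 0]

/-- first direction of the chart -/
def ACL_vX (ι : Fin 2) : E3 := if ι = 0 then ![0, 1, 0] else ![1, 0, 0]

/-- second direction of the chart -/
def ACL_vY : E3 := ![0, 0, 1]

theorem ACL_cht (ι : Fin 2) (x y : ℂ) : cht ι x y = ACL_c0 ι + (x • ACL_vX ι + y • ACL_vY) := by
  unfold cht ACL_c0 ACL_vX ACL_vY
  by_cases h : ι = 0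
  · rw [if_pos h, if_pos h, if_pos h]
    funext i
    fin_cases i <;> simp
  · rw [if_neg h, if_neg h, if_neg h]
    funext i
    fin_cases i <;> simp

/-- derivative of the chart -/
noncomputable def ACL_L (ι : Fin 2) : ℂ × ℂ →L[ℂ] E3 :=
  (ContinuousLinearMap.fst ℂ ℂ ℂ).smulRight (ACL_vX ι) + (ContinuousLinearMap.snd ℂ ℂ ℂ).smulRight ACL_vY

theorem ACL_Lapply (ι : Fin 2) (a : ℂ × ℂ) : ACL_L ι a = a.1 • ACL_vX ι + a.2 • ACL_vY := rfl

theorem ACL_chtf (ι : Fin 2) : (fun q : ℂ × ℂ => cht ι q.1 q.2) = fun q => ACL_c0 ι + ACL_L ι q := by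
  funext q
  rw [ACL_cht, ACL_Lapply]

theorem ACL_der (ι : Fin 2) (p : ℂ × ℂ) : HasFDerivAt (fun q : ℂ × ℂ => cht ι q.1 q.2) (ACL_L ι) p := by
  rw [ACL_chtf]
  exact (ACL_L ι).hasFDerivAt.const_add _

theorem ACL_chs (ι : Fin 2) : ContDiff ℂ ∞ (fun q : ℂ × ℂ => cht ι q.1 q.2) := by
  rw [ACL_chtf]
  exact contDiff_const.add (ACL_L ι).contDiff

theorem ACL_ne (ι : Fin 2) (x y : ℂ) : cht ι x y ≠ 0 := by
  intro h
  unfold cht at h
  by_cases h0 : ι = 0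
  · rw [if_pos h0] at h
    have := congrFun h 0
    simp at this
  · rw [if_neg h0] at h
    have := congrFun h 1
    simp at this

theorem ACL_det (ι : Fin 2) (x y : ℂ) : Complex.normSq (cht ι x y ⬝ᵥ crs (ACL_vX ι) ACL_vY) = 1 := by
  unfold cht ACL_vX ACL_vY crs
  by_cases h : ι = 0
  · rw [if_pos h, if_pos h]
    simp [dotProduct, Fin.sum_univ_three]
  · rw [if_neg h, if_neg h]
    simp [dotProduct, Fin.sum_univ_three]

/-! ### smoothness -/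

theorem ACL_Its {d : ℕ} (f : Endo 2 d) (n : ℕ) (ι : Fin 2) (i : Fin 3) :
    ContDiff ℂ ∞ fun q : ℂ × ℂ => It f n (cht ι q.1 q.2) i :=
  (PSC_Itc f n i).comp (ACL_chs ι)

theorem ACL_Itne {d : ℕ} (f : Endo 2 d) (n : ℕ) (ι : Fin 2) (x y : ℂ) : It f n (cht ι x y) ≠ 0 :=
  pmap_ne (iter_nd f.nondeg n) (ACL_ne ι x y)

/-- the function `g_j` -/
noncomputable def ACL_g {d : ℕ} (f : Endo 2 d) (j : ℕ) (ι : Fin 2) (p : ℂ × ℂ) : ℝ :=
  (1 / 2) * Real.log (nq (It f j (cht ι p.1 p.2)))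

theorem ACL_gs {d : ℕ} (f : Endo 2 d) (j : ℕ) (ι : Fin 2) : ContDiff ℝ ∞ (ACL_g f j ι) := by
  rw [← contDiffOn_univ]
  exact INTB_smlog (fun p : ℂ × ℂ => It f j (cht ι p.1 p.2)) univ
    (fun i => ((ACL_Its f j ι i).restrict_scalars ℝ).contDiffOn) (fun p _ => ACL_Itne f j ι p.1 p.2)

theorem ACL_gpos {d : ℕ} (f : Endo 2 d) (j : ℕ) (ι : Fin 2) (p a : ℂ × ℂ) : 0 ≤ lev (ACL_g f j ι) p a := by
  set G : ℂ → E3 := fun t => It f j (cht ι (p + t • a).1 (p + t • a).2) with hG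
  have hl : ContDiff ℂ ∞ fun t : ℂ => p + t • a := contDiff_const.add (contDiff_id.smul contDiff_const)
  have hGd : DifferentiableOn ℂ G univ := by
    rw [differentiableOn_pi]
    intro i
    exact (((ACL_Its f j ι i).comp hl).differentiable (by simp)).differentiableOn
  have h := INTM_lap G univ isOpen_univ 0 (mem_univ _) hGd (ACL_Itne f j ι _ _)
  have e : lev (ACL_g f j ι) p a = lap (fun t => (1 / 2) * Real.log (nq (G t))) 0 := rfl
  rw [e, h, ← INTM_lagr (G 0) (deriv G 0)]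
  exact div_nonneg (INTM_nq_nonneg _) (mul_nonneg zero_le_two (sq_nonneg _))

/-! ### pointwise bound of the mixed density -/

theorem ACL_MAb (A B : ℂ × ℂ → ℝ) (p : ℂ × ℂ) (hB : ContDiffAt ℝ 2 B p) (M : ℝ)
    (h1 : |lev A p (1, 0)| ≤ M) (h2 : |lev A p (0, 1)| ≤ M) (h3 : |lev A p (1, 1)| ≤ M)
    (h4 : |lev A p (1, Complex.I)| ≤ M) (hpos : ∀ a, 0 ≤ lev B p a) :
    |MA A B p| ≤ 4 * M * (lev B p (1, 0) + lev B p (0, 1)) := by
  have hM : 0 ≤ M := (abs_nonneg _).trans h1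
  have b1 := hpos (1, 0)
  have b2 := hpos (0, 1)
  have c1 := hpos (1, 1)
  have c2 := hpos (1, -1)
  have c3 := hpos (1, Complex.I)
  have c4 := hpos (1, -Complex.I)
  rw [MAU_herm B p hB] at c1 c2 c3 c4
  simp only [map_one, map_neg, mul_one, one_mul, mul_neg, Complex.one_re, Complex.one_im, Complex.neg_re,
    Complex.neg_im, Complex.normSq_neg, Complex.normSq_I, Complex.conj_I, Complex.I_re, Complex.I_im, neg_neg,
    mul_zero, neg_zero, sub_zero, zero_sub] at c1 c2 c3 c4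
  have r1 : |lre A p| ≤ (3 / 2) * M := by
    unfold lre
    rw [abs_le] at h1 h2 h3 ⊢
    constructor <;> linarith [h1.1, h1.2, h2.1, h2.2, h3.1, h3.2]
  have r2 : |lim A p| ≤ (3 / 2) * M := by
    unfold Pool.Agent.P2.lim
    rw [abs_le] at h1 h2 h4 ⊢
    constructor <;> linarith [h1.1, h1.2, h2.1, h2.2, h4.1, h4.2]
  have s1 : |lre B p| ≤ (1 / 2) * (lev B p (1, 0) + lev B p (0, 1)) := by
    rw [abs_le]
    constructor <;> linarith
  have s2 : |lim B p| ≤ (1 / 2) * (lev B p (1, 0) + lev B p (0, 1)) := by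
    rw [abs_le]
    constructor <;> linarith
  have t1 : |lev A p (1, 0) * lev B p (0, 1)| ≤ M * lev B p (0, 1) := by
    rw [abs_mul, abs_of_nonneg b2]
    exact mul_le_mul_of_nonneg_right h1 b2
  have t2 : |lev A p (0, 1) * lev B p (1, 0)| ≤ M * lev B p (1, 0) := by
    rw [abs_mul, abs_of_nonneg b1]
    exact mul_le_mul_of_nonneg_right h2 b1
  have t3 : |lre A p * lre B p| ≤ (3 / 2) * M * ((1 / 2) * (lev B p (1, 0) + lev B p (0, 1))) := by
    rw [abs_mul]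
    exact mul_le_mul r1 s1 (abs_nonneg _) (by positivity)
  have t4 : |lim A p * lim B p| ≤ (3 / 2) * M * ((1 / 2) * (lev B p (1, 0) + lev B p (0, 1))) := by
    rw [abs_mul]
    exact mul_le_mul r2 s2 (abs_nonneg _) (by positivity)
  unfold MA
  rw [abs_le] at t1 t2 t3 t4 ⊢
  constructor <;> linarith [t1.1, t1.2, t2.1, t2.2, t3.1, t3.2, t4.1, t4.2]

/-! ### the cut-off -/

theorem ACL_etas : ContDiff ℝ ∞ eta := by
  unfold eta
  exact Real.smoothTransition.contDiff.comp (contDiff_const.sub (contDiff_const.mul PSC_normSq))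

theorem ACL_chis (x0 y0 : ℂ) (ρ : ℝ) : ContDiff ℝ ∞ (bxc x0 y0 ρ) := by
  unfold bxc
  have h1 : ContDiff ℝ ∞ fun p : ℂ × ℂ => (ρ : ℂ)⁻¹ * (p.1 - x0) := contDiff_const.mul (contDiff_fst.sub contDiff_const)
  have h2 : ContDiff ℝ ∞ fun p : ℂ × ℂ => (ρ : ℂ)⁻¹ * (p.2 - y0) := contDiff_const.mul (contDiff_snd.sub contDiff_const)
  exact ((ACL_etas.comp h1).pow 2).mul ((ACL_etas.comp h2).pow 2)

theorem ACL_eta0 (ρ : ℝ) (hρ : 0 < ρ) (z : ℂ) (h : eta ((ρ : ℂ)⁻¹ * z) ≠ 0) : ‖z‖ ≤ 4 * ρ / 5 := by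
  have h1 : 0 < 5 - 8 * Complex.normSq ((ρ : ℂ)⁻¹ * z) := by
    by_contra hcon
    exact h (Real.smoothTransition.zero_of_nonpos (not_lt.1 hcon))
  rw [Complex.normSq_mul, ← Complex.sq_norm z, map_inv₀, Complex.normSq_ofReal] at h1
  have h2 : ‖z‖ ^ 2 < 5 / 8 * (ρ * ρ) := by
    have h3 : (ρ * ρ)⁻¹ * ‖z‖ ^ 2 < 5 / 8 := by linarith
    have h4 : 0 < ρ * ρ := mul_pos hρ hρ
    rw [inv_mul_lt_iff₀ h4] at h3
    linarith
  by_contra hcon
  push Not at hcon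
  have h5 : (4 * ρ / 5) ^ 2 < ‖z‖ ^ 2 := by
    apply pow_lt_pow_left₀ hcon (by positivity) (by norm_num)
  nlinarith [mul_pos hρ hρ]

theorem ACL_chit (x0 y0 : ℂ) (ρ : ℝ) (hρ : 0 < ρ) : tsupport (bxc x0 y0 ρ) ⊆ closedBall (x0, y0) (4 * ρ / 5) := by
  apply closure_minimal _ isClosed_closedBall
  intro p hp
  rw [Function.mem_support] at hp
  unfold bxc at hp
  have h1 := ACL_eta0 ρ hρ (p.1 - x0) (fun h => hp (by rw [h]; ring))
  have h2 := ACL_eta0 ρ hρ (p.2 - y0) (fun h => hp (by rw [h]; ring))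
  rw [mem_closedBall, Prod.dist_eq]
  exact max_le (by rw [dist_eq_norm]; exact h1) (by rw [dist_eq_norm]; exact h2)

theorem ACL_chic (x0 y0 : ℂ) (ρ : ℝ) (hρ : 0 < ρ) : HasCompactSupport (bxc x0 y0 ρ) :=
  (isCompact_closedBall (x0, y0) (4 * ρ / 5)).of_isClosed_subset (isClosed_tsupport _) (ACL_chit x0 y0 ρ hρ)

/-! ### the density in the chart -/

theorem ACL_levscale (c : ℝ) (g : ℂ × ℂ → ℝ) (p a : ℂ × ℂ) (hg : ContDiffAt ℝ 2 g p) :
    lev (fun q => g q * c) p a = lev g p a * c :=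
  INTB_lapmul c _ 0 (INTB_line g p a hg)

theorem ACL_ed (hMAU : MAU_stmt) (hCHN : CHN_stmt) (hENC : ENC_stmt) {d : ℕ} (f : Endo 2 d) (U : Set (PP 2)) (hd : 2 ≤ d)
    (hU : Good0 f U) (j N : ℕ) (B : ℝ) (hadm : Adm f U N (psj f j N) B) (ι : Fin 2) (Ω : Set (ℂ × ℂ)) (hΩ : IsOpen Ω)
    (hsub : ∀ p ∈ Ω, cht ι p.1 p.2 ∈ cone U) (hpq : ∀ p ∈ Ω, 0 < pq (It f N (cht ι p.1 p.2))) (p : ℂ × ℂ) (hp : p ∈ Ω) :
    ContDiffOn ℝ ∞ (fun q : ℂ × ℂ => un f N (cht ι q.1 q.2)) Ω ∧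
    ed f N (psj f j N) (cht ι p.1 p.2) = MA (ACL_g f j ι) (fun q : ℂ × ℂ => un f N (cht ι q.1 q.2)) p := by
  have hd0 : (0 : ℝ) < (d : ℝ) ^ N := by
    have : (0 : ℝ) < d := by exact_mod_cast (by omega : 0 < d)
    positivity
  obtain ⟨P, hP⟩ : ∃ P : ℂ × ℂ → ℂ, P = fun q => It f N (cht ι q.1 q.2) 0 := ⟨_, rfl⟩
  obtain ⟨Q, hQ⟩ : ∃ Q : ℂ × ℂ → ℂ, Q = fun q => It f N (cht ι q.1 q.2) 1 := ⟨_, rfl⟩
  have hPs : ContDiff ℂ ∞ P := by rw [hP]; exact ACL_Its f N ι 0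
  have hQs : ContDiff ℂ ∞ Q := by rw [hQ]; exact ACL_Its f N ι 1
  have hne : ∀ q ∈ Ω, P q ≠ 0 ∨ Q q ≠ 0 := by
    intro q hq
    by_contra hcon
    push Not at hcon
    have h1 := hpq q hq
    unfold pq at h1
    rw [hP, hQ] at hcon
    simp only at hcon
    rw [hcon.1, hcon.2] at h1
    simp at h1
  have huu : (fun q : ℂ × ℂ => un f N (cht ι q.1 q.2)) = uu P Q ((d : ℝ) ^ N) := by
    rw [hP, hQ]
    rfl
  have hus : ContDiffOn ℝ ∞ (fun q : ℂ × ℂ => un f N (cht ι q.1 q.2)) Ω := by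
    have h1 : ContDiff ℝ ∞ (fun q : ℂ × ℂ => pq (It f N (cht ι q.1 q.2))) := by
      unfold pq
      exact (PSC_normSq.comp ((ACL_Its f N ι 0).restrict_scalars ℝ)).add
        (PSC_normSq.comp ((ACL_Its f N ι 1).restrict_scalars ℝ))
    unfold un
    exact (contDiffOn_const.mul (h1.contDiffOn.log fun q hq => (hpq q hq).ne')).div_const _
  refine ⟨hus, ?_⟩
  have hgs := ACL_gs f j ι
  obtain ⟨m1, -, m3⟩ := hMAU Ω P Q (ACL_g f j ι) ((d : ℝ) ^ N) hΩ (hPs.differentiable (by simp)).differentiableOn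
    (hQs.differentiable (by simp)).differentiableOn hne hgs.contDiffOn hd0 p hp
  -- derivatives
  have hder : ∀ (i : Fin 3) (a : ℂ × ℂ), fderiv ℂ (fun q : ℂ × ℂ => It f N (cht ι q.1 q.2) i) p a =
      fderiv ℂ (fun W : E3 => It f N W i) (cht ι p.1 p.2) (ACL_L ι a) := by
    intro i a
    have h1 : HasFDerivAt (fun W : E3 => It f N W i) (fderiv ℂ (fun W : E3 => It f N W i) (cht ι p.1 p.2))
        (cht ι p.1 p.2) := (ENC_Itd f N i _).hasFDerivAt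
    have h2 := h1.comp p (ACL_der ι p)
    have h3 : HasFDerivAt (fun q : ℂ × ℂ => It f N (cht ι q.1 q.2) i)
        ((fderiv ℂ (fun W : E3 => It f N W i) (cht ι p.1 p.2)).comp (ACL_L ι)) p := h2
    rw [h3.fderiv]
    rfl
  have e10 : ACL_L ι (1, 0) = ACL_vX ι := by
    rw [ACL_Lapply]
    simp
  have e01 : ACL_L ι (0, 1) = ACL_vY := by
    rw [ACL_Lapply]
    simp
  have hw1 : w1 P Q p = cc f N (cht ι p.1 p.2) (ACL_vX ι) := by
    unfold w1 cc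
    rw [hP, hQ]
    rw [hder, hder, e10]
  have hw2 : w2 P Q p = cc f N (cht ι p.1 p.2) ACL_vY := by
    unfold w2 cc
    rw [hP, hQ]
    rw [hder, hder, e01]
  have hev : ACL_L ι (ev P Q p) = cc f N (cht ι p.1 p.2) (ACL_vX ι) • ACL_vY - cc f N (cht ι p.1 p.2) ACL_vY • ACL_vX ι := by
    rw [ACL_Lapply]
    unfold Pool.Agent.P2.ev
    rw [hw1, hw2]
    simp only [neg_smul]
    abel
  have hΨs : ContDiffAt ℝ ∞ (psj f j N) (cht ι p.1 p.2) :=
    hadm.1.contDiffAt ((cone_open hU.1.1).mem_nhds (hsub p hp))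
  have hch := hCHN.1 Ω (fun q => cht ι q.1 q.2) (psj f j N) p (ev P Q p) hΩ
    ((ACL_chs ι).differentiable (by simp)).differentiableOn hp (hΨs.of_le ENat.LEInfty.out)
  rw [(ACL_der ι p).fderiv, hev] at hch
  have hen := (hENC d f U N (psj f j N) B hd hU hadm (cht ι p.1 p.2) (hsub p hp)).1 (ACL_vX ι) ACL_vY
  rw [ACL_det, one_mul] at hen
  rw [← hen]
  unfold en
  rw [← hch]
  -- the Levi form of psj
  have hsplit : lev (fun q : ℂ × ℂ => psj f j N (cht ι q.1 q.2)) p (ev P Q p) = lev (ACL_g f j ι) p (ev P Q p) := by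
    have h1 : (fun q : ℂ × ℂ => psj f j N (cht ι q.1 q.2)) =
        fun q => ACL_g f j ι q - (uu P Q ((d : ℝ) ^ N) q * (d : ℝ) ^ j) := by
      funext q
      rw [← huu]
      unfold psj ACL_g
      ring
    have h2 : ContDiffAt ℝ 2 (uu P Q ((d : ℝ) ^ N)) p := by
      rw [← huu]
      exact (hus.contDiffAt (hΩ.mem_nhds hp)).of_le ENat.LEInfty.out
    rw [h1, INTB_levsub _ _ p _ (hgs.contDiffAt.of_le ENat.LEInfty.out) (h2.mul contDiffAt_const),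
      ACL_levscale _ _ _ _ h2, m3]
    ring
  rw [hsplit, huu, m1]
  have hom : om P Q p = (pq (It f N (cht ι p.1 p.2)) ^ 2)⁻¹ := by
    rw [hP, hQ]
    rfl
  rw [hom]
  have hpp := hpq p hp
  field_simp

/-! ### the mixed integral with a cut-off -/

theorem ACL_int (χ θ g u : ℂ × ℂ → ℝ) (Ω : Set (ℂ × ℂ)) (hΩ : IsOpen Ω) (hχ : ContDiff ℝ ∞ χ)
    (hθ : ContDiff ℝ ∞ θ) (hθc : HasCompactSupport θ) (hθs : tsupport θ ⊆ Ω) (hθ1 : ∀ p ∈ tsupport χ, θ p = 1)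
    (hg : ContDiff ℝ ∞ g) (hu : ContDiffOn ℝ ∞ u Ω) : Integrable (fun p => u p * MA χ g p) := by
  have h1 : ContinuousOn (fun p => u p * MA χ g p) Ω :=
    hu.continuousOn.mul (INTB_MAc χ g Ω hΩ hχ.contDiffOn hg.contDiffOn)
  have h2 := INTB_integrable θ (fun p => u p * MA χ g p) Ω hΩ hθ.continuous hθc hθs h1
  have e : (fun p => θ p * (u p * MA χ g p)) = fun p => u p * MA χ g p := by
    funext p
    by_cases hp : p ∈ tsupport χ
    · rw [hθ1 p hp, one_mul]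
    · rw [STO_MA0 hχ g p hp]
      ring
  rw [e] at h2
  exact h2

theorem ACL (hUN1 : UN1_stmt) (hSTO : STO_stmt) (hMAU : MAU_stmt) (hCHN : CHN_stmt) (_hLSE : LSE_stmt) (hENC : ENC_stmt)
    (hAPS : APS_stmt) : ACL_stmt := by
  intro d f U hd hU ι x0 y0 ρ hρ hbox
  obtain ⟨C, hC, u1, u2, u3, u4⟩ := hUN1 d f U hd hU
  obtain ⟨C2, -, hadm, -, -⟩ := hAPS d f U hd hU
  have hd1 : (1 : ℝ) ≤ d := by exact_mod_cast (by omega : 1 ≤ d)
  have hd0 : ∀ n : ℕ, (0 : ℝ) < (d : ℝ) ^ n := fun n => by positivity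
  have hcl : ∀ p ∈ ball (x0, y0) ρ, cht ι p.1 p.2 ∈ cone (closure U) := by
    intro p hp
    obtain ⟨h1, h2⟩ := hbox p hp
    exact ⟨h1, subset_closure h2⟩
  obtain ⟨Ω, hΩd⟩ : ∃ Ω : Set (ℂ × ℂ), Ω = ball (x0, y0) ρ := ⟨_, rfl⟩
  rw [← hΩd] at hbox hcl
  have hΩ : IsOpen Ω := by rw [hΩd]; exact isOpen_ball
  -- cut-offs
  obtain ⟨χ, hχd⟩ : ∃ χ : ℂ × ℂ → ℝ, χ = bxc x0 y0 ρ := ⟨_, rfl⟩
  have hχ : ContDiff ℝ ∞ χ := by rw [hχd]; exact ACL_chis x0 y0 ρ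
  have hχc : HasCompactSupport χ := by rw [hχd]; exact ACL_chic x0 y0 ρ hρ
  have hχt : tsupport χ ⊆ closedBall (x0, y0) (4 * ρ / 5) := by rw [hχd]; exact ACL_chit x0 y0 ρ hρ
  have hχΩ : tsupport χ ⊆ Ω := by
    rw [hΩd]
    exact hχt.trans (closedBall_subset_ball (by linarith))
  let bm : ContDiffBump ((x0, y0) : ℂ × ℂ) := ⟨5 * ρ / 6, 6 * ρ / 7, by linarith, by linarith⟩
  obtain ⟨θ, hθd⟩ : ∃ θ : ℂ × ℂ → ℝ, θ = bm := ⟨_, rfl⟩
  have hθ : ContDiff ℝ ∞ θ := by rw [hθd]; exact bm.contDiff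
  have hθc : HasCompactSupport θ := by rw [hθd]; exact bm.hasCompactSupport
  have hθΩ : tsupport θ ⊆ Ω := by
    rw [hθd, bm.tsupport_eq, hΩd]
    apply closedBall_subset_ball
    show 6 * ρ / 7 < ρ
    linarith
  have hθ1 : ∀ p ∈ tsupport χ, θ p = 1 := by
    intro p hp
    rw [hθd]
    apply bm.one_of_mem_closedBall
    show p ∈ closedBall (x0, y0) (5 * ρ / 6)
    exact closedBall_subset_closedBall (by linarith) (hχt hp)
  have hθ0 : ∀ p, 0 ≤ θ p := by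
    intro p
    rw [hθd]
    exact bm.nonneg
  -- bounds of the Levi form of the cut-offs
  obtain ⟨-, -, M1, hM10, hM1⟩ := INTB_bound _ hχ hχc (1, 0)
  obtain ⟨-, -, M2, hM20, hM2⟩ := INTB_bound _ hχ hχc (0, 1)
  obtain ⟨-, -, M3, hM30, hM3⟩ := INTB_bound _ hχ hχc (1, 1)
  obtain ⟨-, -, M4, hM40, hM4⟩ := INTB_bound _ hχ hχc (1, Complex.I)
  obtain ⟨M, hM⟩ : ∃ M, M = M1 + M2 + M3 + M4 := ⟨_, rfl⟩
  have hM0 : 0 ≤ M := by rw [hM]; positivity
  obtain ⟨c1c, c1s, -⟩ := INTB_bound _ hθ hθc (1, 0)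
  obtain ⟨c2c, c2s, -⟩ := INTB_bound _ hθ hθc (0, 1)
  obtain ⟨J1, hJ1⟩ : ∃ J, J = ∫ p, |lev θ p (1, 0)| := ⟨_, rfl⟩
  obtain ⟨J2, hJ2⟩ : ∃ J, J = ∫ p, |lev θ p (0, 1)| := ⟨_, rfl⟩
  have hJ10 : 0 ≤ J1 := by rw [hJ1]; exact integral_nonneg (fun _ => abs_nonneg _)
  have hJ20 : 0 ≤ J2 := by rw [hJ2]; exact integral_nonneg (fun _ => abs_nonneg _)
  have i1 : Integrable (fun p => |lev θ p (1, 0)|) := (c1c.integrable_of_hasCompactSupport c1s).abs
  have i2 : Integrable (fun p => |lev θ p (0, 1)|) := (c2c.integrable_of_hasCompactSupport c2s).abs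
  -- bound of the logarithm in the box
  obtain ⟨L, hL⟩ : ∃ L : ℝ, ∀ p ∈ Ω, |(1 / 2) * Real.log (nq (cht ι p.1 p.2))| ≤ L := by
    have hs : Continuous (fun p : ℂ × ℂ => (1 / 2) * Real.log (nq (cht ι p.1 p.2))) := by
      have h1 := (ACL_gs f 0 ι).continuous
      have h2 : ACL_g f 0 ι = fun p : ℂ × ℂ => (1 / 2) * Real.log (nq (cht ι p.1 p.2)) := by
        funext p
        unfold ACL_g
        rw [PSC_It0]
      rw [h2] at h1
      exact h1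
    obtain ⟨L, hL⟩ := (isCompact_closedBall (x0, y0) ρ).exists_bound_of_continuousOn hs.continuousOn
    refine ⟨L, fun p hp => ?_⟩
    rw [hΩd] at hp
    exact hL p (ball_subset_closedBall hp)
  have hL0 : 0 ≤ L := (abs_nonneg _).trans (hL (x0, y0) (by rw [hΩd]; exact mem_ball_self hρ))
  have hgb : ∀ (j : ℕ), ∀ p ∈ Ω, |ACL_g f j ι p| ≤ (d : ℝ) ^ j * (2 * C + L) := by
    intro j p hp
    have a1 := u4 j _ (hcl p hp)
    have a2 := u2 j _ (hcl p hp)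
    have a3 := hL p hp
    have a4 : (1 : ℝ) ≤ (d : ℝ) ^ j := one_le_pow₀ hd1
    have a5 : |un f j (cht ι p.1 p.2)| ≤ C + L := by
      have h1 := abs_add_le (un f j (cht ι p.1 p.2) - (1 / 2) * Real.log (nq (cht ι p.1 p.2)))
        ((1 / 2) * Real.log (nq (cht ι p.1 p.2)))
      rw [sub_add_cancel] at h1
      linarith
    have a6 := abs_add_le ((1 / 2) * Real.log (nq (It f j (cht ι p.1 p.2))) - (d : ℝ) ^ j * un f j (cht ι p.1 p.2))
      ((d : ℝ) ^ j * un f j (cht ι p.1 p.2))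
    rw [sub_add_cancel, abs_mul ((d : ℝ) ^ j), abs_of_pos (hd0 j)] at a6
    have a7 : (d : ℝ) ^ j * |un f j (cht ι p.1 p.2)| ≤ (d : ℝ) ^ j * (C + L) := mul_le_mul_of_nonneg_left a5 (hd0 j).le
    have a8 : C ≤ (d : ℝ) ^ j * C := le_mul_of_one_le_left hC.le a4
    unfold ACL_g
    calc |(1 / 2) * Real.log (nq (It f j (cht ι p.1 p.2)))| ≤ C + (d : ℝ) ^ j * (C + L) := by linarith
      _ ≤ (d : ℝ) ^ j * C + (d : ℝ) ^ j * (C + L) := by linarith
      _ = _ := by ring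
  refine ⟨C * (4 * M) * ((2 * C + L) * (J1 + J2)) + 1, by positivity, ?_⟩
  intro j N N' hjN hNN'
  obtain ⟨g, hgd⟩ : ∃ g : ℂ × ℂ → ℝ, g = ACL_g f j ι := ⟨_, rfl⟩
  have hg : ContDiff ℝ ∞ g := by rw [hgd]; exact ACL_gs f j ι
  have hgp : ∀ p a, 0 ≤ lev g p a := by rw [hgd]; exact ACL_gpos f j ι
  have hgB : ∀ p ∈ Ω, |g p| ≤ (d : ℝ) ^ j * (2 * C + L) := by rw [hgd]; exact hgb j
  -- the formula for `bx`
  have key : ∀ n : ℕ, j ≤ n → ContDiffOn ℝ ∞ (fun q : ℂ × ℂ => un f n (cht ι q.1 q.2)) Ω ∧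
      bx f j n ι x0 y0 ρ = ∫ p, un f n (cht ι p.1 p.2) * MA χ g p := by
    intro n hn
    have h0 := ACL_ed hMAU hCHN hENC f U hd hU j n C2 (hadm j n hn) ι Ω hΩ hbox (fun p hp => (u3 n _ (hcl p hp)).1)
    have hx : (x0, y0) ∈ Ω := by rw [hΩd]; exact mem_ball_self hρ
    have hus := (h0 (x0, y0) hx).1
    refine ⟨hus, ?_⟩
    have h1 := hSTO Ω χ (fun q : ℂ × ℂ => un f n (cht ι q.1 q.2)) g hΩ hχ hχc hχΩ hus hg.contDiffOn
    rw [← h1]
    unfold bx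
    rw [← hχd]
    refine integral_congr_ae (Eventually.of_forall fun p => ?_)
    by_cases hp : p ∈ tsupport χ
    · show χ p * _ = χ p * _
      rw [(h0 p (hχΩ hp)).2, ← hgd]
      congr 1
      unfold MA
      ring
    · show χ p * _ = χ p * _
      rw [image_eq_zero_of_notMem_tsupport hp, zero_mul, zero_mul]
  obtain ⟨s1, e1⟩ := key N hjN
  obtain ⟨s2, e2⟩ := key N' (hjN.trans hNN')
  have I1 := ACL_int χ θ g _ Ω hΩ hχ hθ hθc hθΩ hθ1 hg s1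
  have I2 := ACL_int χ θ g _ Ω hΩ hχ hθ hθc hθΩ hθ1 hg s2
  rw [e1, e2, ← integral_sub I2 I1]
  -- the dominating function
  have k1 : Integrable (fun p => θ p * lev g p (1, 0)) :=
    INTB_integrable θ _ Ω hΩ hθ.continuous hθc hθΩ (INTB_cont g Ω hΩ hg.contDiffOn _)
  have k2 : Integrable (fun p => θ p * lev g p (0, 1)) :=
    INTB_integrable θ _ Ω hΩ hθ.continuous hθc hθΩ (INTB_cont g Ω hΩ hg.contDiffOn _)
  have hdom : Integrable (fun p => C / (d : ℝ) ^ N * (4 * M) * (θ p * lev g p (1, 0) + θ p * lev g p (0, 1))) :=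
    (k1.add k2).const_mul _
  have hle : ∀ p : ℂ × ℂ, ‖un f N' (cht ι p.1 p.2) * MA χ g p - un f N (cht ι p.1 p.2) * MA χ g p‖ ≤
      C / (d : ℝ) ^ N * (4 * M) * (θ p * lev g p (1, 0) + θ p * lev g p (0, 1)) := by
    intro p
    by_cases hp : p ∈ tsupport χ
    · rw [hθ1 p hp, one_mul, one_mul, ← sub_mul, Real.norm_eq_abs, abs_mul]
      have a1 := u1 N N' hNN' _ (hcl p (hχΩ hp))
      have a2 := ACL_MAb χ g p (hg.contDiffAt.of_le ENat.LEInfty.out) M ((hM1 p).trans (by rw [hM]; linarith))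
        ((hM2 p).trans (by rw [hM]; linarith)) ((hM3 p).trans (by rw [hM]; linarith))
        ((hM4 p).trans (by rw [hM]; linarith)) (hgp p)
      calc |un f N' (cht ι p.1 p.2) - un f N (cht ι p.1 p.2)| * |MA χ g p| ≤
          C / (d : ℝ) ^ N * (4 * M * (lev g p (1, 0) + lev g p (0, 1))) :=
            mul_le_mul a1 a2 (abs_nonneg _) (div_nonneg hC.le (hd0 N).le)
        _ = _ := by ring
    · rw [STO_MA0 hχ g p hp, mul_zero, mul_zero, sub_zero, norm_zero]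
      have a1 := mul_nonneg (hθ0 p) (hgp p (1, 0))
      have a2 := mul_nonneg (hθ0 p) (hgp p (0, 1))
      have a3 : 0 ≤ C / (d : ℝ) ^ N := div_nonneg hC.le (hd0 N).le
      positivity
  have hfin := norm_integral_le_of_norm_le hdom (Eventually.of_forall hle)
  rw [integral_const_mul, integral_add k1 k2] at hfin
  obtain ⟨q1, q2⟩ := INTB_ibp hSTO Ω θ g hΩ hθ hθc hθΩ hg.contDiffOn
  rw [q1, q2] at hfin
  have hb : ∀ (a : ℂ × ℂ) (J : ℝ), Integrable (fun p => |lev θ p a|) → J = ∫ p, |lev θ p a| →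
      ∫ p, g p * lev θ p a ≤ (d : ℝ) ^ j * (2 * C + L) * J := by
    intro a J hi hJ
    have h1 : ∀ p : ℂ × ℂ, ‖g p * lev θ p a‖ ≤ (d : ℝ) ^ j * (2 * C + L) * |lev θ p a| := by
      intro p
      by_cases hp : p ∈ tsupport θ
      · rw [Real.norm_eq_abs, abs_mul]
        exact mul_le_mul_of_nonneg_right (hgB p (hθΩ hp)) (abs_nonneg _)
      · rw [INTB_lev0 θ hθ p hp a]
        simp
    have h2 := norm_integral_le_of_norm_le (hi.const_mul ((d : ℝ) ^ j * (2 * C + L))) (Eventually.of_forall h1)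
    rw [integral_const_mul, ← hJ] at h2
    exact (le_abs_self _).trans h2
  have r1 := hb (1, 0) J1 i1 hJ1
  have r2 := hb (0, 1) J2 i2 hJ2
  rw [Real.norm_eq_abs] at hfin
  refine hfin.trans ?_
  have a3 : 0 ≤ C / (d : ℝ) ^ N * (4 * M) := mul_nonneg (div_nonneg hC.le (hd0 N).le) (by positivity)
  calc C / (d : ℝ) ^ N * (4 * M) * ((∫ p, g p * lev θ p (1, 0)) + ∫ p, g p * lev θ p (0, 1)) ≤
      C / (d : ℝ) ^ N * (4 * M) * ((d : ℝ) ^ j * (2 * C + L) * J1 + (d : ℝ) ^ j * (2 * C + L) * J2) :=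
        mul_le_mul_of_nonneg_left (add_le_add r1 r2) a3
    _ = (C * (4 * M) * ((2 * C + L) * (J1 + J2))) * (d : ℝ) ^ j / (d : ℝ) ^ N := by ring
    _ ≤ (C * (4 * M) * ((2 * C + L) * (J1 + J2)) + 1) * (d : ℝ) ^ j / (d : ℝ) ^ N := by
        apply div_le_div_of_nonneg_right _ (hd0 N).le
        apply mul_le_mul_of_nonneg_right _ (hd0 j).le
        linarith

end Pool.Agent.P2A
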