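import Pool.Agent.helper37.P2.SpecD

set_option autoImplicit false

/-! Row `p2:NNG`. -/

open scoped ContDiff Topology
open MeasureTheory Filter Set Metric MvPolynomial Pool.Agent.helper37.QA

namespace Pool.Agent.P2

theorem NNG_Af {d : ℕ} (f : Endo 2 d) (m : ℕ) (ι : Fin 2) (c : ℂ) (κ : ℝ) (γ : ℂ → ℂ) (p a : ℂ × ℂ) :
    0 ≤ Af f m ι c κ γ p a :=
  div_nonneg (Finset.sum_nonneg fun _ _ => Complex.normSq_nonneg _) (sq_nonneg _)

theorem NNG_Lf {d : ℕ} (f : Endo 2 d) (m : ℕ) (Λ : ℝ) (ι : Fin 2) (c : ℂ) (κ : ℝ) (γ : ℂ → ℂ) (p : ℂ × ℂ) :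
    0 ≤ Lf f m Λ ι c κ γ p := by
  have h1 := NNG_Af f m ι c κ γ p (1, 0)
  have h2 := NNG_Af f m ι c κ γ p (0, 1)
  have h3 := Real.exp_pos (-Λ)
  exact sub_nonneg.2 (Real.log_le_log (by linarith) (by linarith))

theorem NNG : NNG_stmt := by
  intro d f N ι c κ γ m Λ s hd
  unfold QR
  refine mul_nonneg (inv_nonneg.2 (sq_nonneg _)) ?_
  refine integral_nonneg fun v => integral_nonneg fun ξ => ?_
  refine mul_nonneg (sq_nonneg _) (mul_nonneg (NNG_Lf _ _ _ _ _ _ _ _) ?_)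
  have h1 : ∀ z : ℂ, 0 ≤ Complex.normSq z := Complex.normSq_nonneg
  unfold gt ta1 om
  have := h1 (w1 (gP f N ι c κ γ) (gQ f N ι c κ γ) (ξ, v))
  positivity

end Pool.Agent.P2
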