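import Pool.Agent.helper37.P2.SpecB

set_option autoImplicit false

/-! Row `p2:TRS`. -/

open scoped ContDiff Topology
open MeasureTheory Set Metric MvPolynomial Pool.Agent.helper37.QA
open Filter hiding pmap

namespace Pool.Agent.P2

/-- the Jacobian matrix -/
noncomputable def TRS_M (F : Fin 3 → MvPolynomial (Fin 3) ℂ) (W : E3) : Matrix (Fin 3) (Fin 3) ℂ :=
  fun i j => eval W (pderiv j (F i))

theorem TRS_deriv {𝕜 : Type} [NontriviallyNormedField 𝕜] [NormedAlgebra 𝕜 ℂ] (p : MvPolynomial (Fin 3) ℂ)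
    {Y : 𝕜 → E3} {Y' : E3} {z : 𝕜} (hY : HasDerivAt Y Y' z) :
    HasDerivAt (fun t => eval (Y t) p) (∑ j, eval (Y z) (pderiv j p) * Y' j) z := by
  have hY2 := hasDerivAt_pi.1 hY
  induction p using MvPolynomial.induction_on with
  | C a =>
    simp only [eval_C, pderiv_C, map_zero, zero_mul, Finset.sum_const_zero]
    exact hasDerivAt_const z a
  | add p q hp hq =>
    have h := hp.add hq
    refine (h.congr_deriv ?_).congr_of_eventuallyEq ?_
    · rw [← Finset.sum_add_distrib]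
      refine Finset.sum_congr rfl fun j _ => ?_
      rw [map_add, map_add]
      ring
    · exact Eventually.of_forall fun t => by simp
  | mul_X p i hp =>
    have h := hp.mul (hY2 i)
    refine (h.congr_deriv ?_).congr_of_eventuallyEq ?_
    · have h1 : ∀ j : Fin 3, eval (Y z) (pderiv j (p * X i)) * Y' j =
          eval (Y z) (pderiv j p) * Y' j * Y z i + eval (Y z) p * (if j = i then Y' j else 0) := by
        intro j
        rw [pderiv_mul, map_add, map_mul, map_mul, eval_X]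
        by_cases hji : j = i
        · subst hji
          rw [pderiv_X_self, map_one, if_pos rfl]
          ring
        · rw [pderiv_X_of_ne (Ne.symm hji), map_zero, if_neg hji]
          ring
      rw [Finset.sum_congr rfl fun j _ => h1 j, Finset.sum_add_distrib, ← Finset.sum_mul, ← Finset.mul_sum]
      simp
    · exact Eventually.of_forall fun t => by simp

theorem TRS_cd (p : MvPolynomial (Fin 3) ℂ) : ContDiff ℝ 1 fun W : E3 => eval W p := by
  induction p using MvPolynomial.induction_on with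
  | C a => simp only [eval_C]; exact contDiff_const
  | add p q hp hq => simp only [map_add]; exact hp.add hq
  | mul_X p i hp =>
    simp only [map_mul, eval_X]
    exact hp.mul (contDiff_apply ℝ ℂ i)

theorem TRS_fin {d : ℕ} (hd : 2 ≤ d) {F : Fin 3 → MvPolynomial (Fin 3) ℂ} (hom : ∀ i, (F i).IsHomogeneous d)
    (nd : ∀ x : Fin 3 → ℂ, (∀ i, eval x (F i) = 0) → x = 0) (w : E3) : {z : E3 | pmap F z = w}.Finite := by
  have h := sol_finite hd hom nd (ell := fun i => C (Polynomial.C (w i))) (fun i => by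
    simp only [totalDegree_C]; omega) 0
  refine h.subset ?_
  intro z hz i
  rw [eqs, map_sub, ev_map, ev_C, Polynomial.eval_C]
  have : eval z (F i) = w i := congrFun hz i
  rw [this, sub_self]

theorem TRS_det {d : ℕ} (hd : 2 ≤ d) {F : Fin 3 → MvPolynomial (Fin 3) ℂ} (hom : ∀ i, (F i).IsHomogeneous d)
    (nd : ∀ x : Fin 3 → ℂ, (∀ i, eval x (F i) = 0) → x = 0) :
    Matrix.det (Matrix.of fun i j => pderiv j (F i) : Matrix (Fin 3) (Fin 3) (MvPolynomial (Fin 3) ℂ)) ≠ 0 := by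
  intro hdet
  obtain ⟨V, hV0, hV⟩ := Matrix.exists_mulVec_eq_zero_iff.2 hdet
  obtain ⟨j0, hj0⟩ := Function.ne_iff.1 hV0
  obtain ⟨W0, hW0⟩ : ∃ W0 : E3, eval W0 (V j0) ≠ 0 := by
    by_contra hcon
    push Not at hcon
    refine hj0 (MvPolynomial.funext fun x => ?_)
    rw [hcon x]
    simp
  set v : E3 → E3 := fun W j => eval W (V j) with hv
  have hvc : ContDiffAt ℝ 1 v W0 := (contDiff_pi.2 fun j => TRS_cd (V j)).contDiffAt
  obtain ⟨α, hα0, ε, hε, hα⟩ := hvc.exists_forall_mem_closedBall_exists_eq_forall_mem_Ioo_hasDerivAt₀ 0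
  have hker : ∀ (W : E3) (i : Fin 3), ∑ j, eval W (pderiv j (F i)) * eval W (V j) = 0 := by
    intro W i
    have h1 := congrFun hV i
    simp only [Matrix.mulVec, dotProduct, Matrix.of_apply, Pi.zero_apply] at h1
    have h2 := congrArg (eval W) h1
    rw [map_sum, map_zero] at h2
    rw [← h2]
    exact Finset.sum_congr rfl fun j _ => by rw [map_mul]
  have hFd : ∀ i, ∀ t ∈ Ioo (0 - ε) (0 + ε), HasDerivAt (fun s => eval (α s) (F i)) 0 t := by
    intro i t ht
    have h1 := TRS_deriv (F i) (hα t ht)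
    rw [hker] at h1
    exact h1
  have hconst : ∀ t ∈ Ioo (0 - ε) (0 + ε), pmap F (α t) = pmap F W0 := by
    intro t ht
    funext i
    change eval (α t) (F i) = eval W0 (F i)
    rw [← hα0]
    have h0 : (0 : ℝ) ∈ Ioo (0 - ε) (0 + ε) := by constructor <;> linarith
    exact isOpen_Ioo.is_const_of_deriv_eq_zero isPreconnected_Ioo
      (fun s hs => (hFd i s hs).differentiableAt.differentiableWithinAt)
      (fun s hs => (hFd i s hs).deriv) ht h0
  have hfin := TRS_fin hd hom nd (pmap F W0)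
  have h0 : (0 : ℝ) ∈ Ioo (0 - ε) (0 + ε) := by constructor <;> linarith
  have hv0 : v (α 0) ≠ 0 := by
    rw [hα0]
    intro h
    exact hW0 (congrFun h j0)
  have hne : ∀ c ∈ {z : E3 | pmap F z = pmap F W0}, ∀ᶠ t in 𝓝[≠] (0 : ℝ), α t ≠ c := fun c _ =>
    (hα 0 h0).eventually_ne hv0
  have hall := (Filter.eventually_all_finite hfin).2 hne
  have hin : ∀ᶠ t in 𝓝[≠] (0 : ℝ), t ∈ Ioo (0 - ε) (0 + ε) :=
    mem_nhdsWithin_of_mem_nhds (isOpen_Ioo.mem_nhds h0)
  obtain ⟨t, ht1, ht2⟩ := (hall.and hin).exists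
  exact ht1 (α t) (hconst t ht2) rfl

theorem TRS_M_det (F : Fin 3 → MvPolynomial (Fin 3) ℂ) (W : E3) :
    (TRS_M F W).det = eval W (Matrix.det (Matrix.of fun i j => pderiv j (F i) : Matrix (Fin 3) (Fin 3) (MvPolynomial (Fin 3) ℂ))) := by
  rw [RingHom.map_det]
  rfl

theorem TRS_euler {d : ℕ} {F : Fin 3 → MvPolynomial (Fin 3) ℂ} (hom : ∀ i, (F i).IsHomogeneous d) (W : E3) :
    (TRS_M F W).mulVec W = (d : ℂ) • pmap F W := by
  funext i
  have h := congrArg (eval W) (hom i).sum_X_mul_pderiv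
  simp only [map_sum, map_mul, eval_X, nsmul_eq_mul, map_natCast] at h
  simp only [Matrix.mulVec, dotProduct, TRS_M, Pi.smul_apply, smul_eq_mul, Pool.Agent.helper37.QA.pmap]
  rw [← h]
  exact Finset.sum_congr rfl fun j _ => mul_comm _ _

theorem TRS_cof (M : Matrix (Fin 3) (Fin 3) ℂ) (a b : E3) (j : Fin 3) :
    ∑ i, M i j * crs (M.mulVec a) (M.mulVec b) i = M.det * crs a b j := by
  fin_cases j <;>
  · simp [crs, Matrix.det_fin_three, Matrix.mulVec, dotProduct, Fin.sum_univ_three]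
    ring

theorem TRS_nq_nonneg (v : E3) : 0 ≤ nq v := Finset.sum_nonneg fun _ _ => Complex.normSq_nonneg _

theorem TRS_nq_smul (c : ℂ) (v : E3) : nq (c • v) = Complex.normSq c * nq v := by
  simp only [nq, Pi.smul_apply, smul_eq_mul, Complex.normSq_mul, Finset.mul_sum]

theorem TRS_nq_pos {v : E3} (hv : v ≠ 0) : 0 < nq v := by
  obtain ⟨i, hi⟩ := Function.ne_iff.1 hv
  exact Finset.sum_pos' (fun i _ => Complex.normSq_nonneg _) ⟨i, Finset.mem_univ i, Complex.normSq_pos.2 hi⟩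

theorem TRS_nq_cont : Continuous (nq : E3 → ℝ) :=
  continuous_finsetSum _ fun i _ => Complex.continuous_normSq.comp (continuous_apply i)

theorem TRS_crs_smul (a b : ℂ) (v w : E3) : crs (a • v) (b • w) = (a * b) • crs v w := by
  funext i
  fin_cases i <;>
  · simp [crs]
    ring

theorem TRS_cs (M : Matrix (Fin 3) (Fin 3) ℂ) (c : E3) :
    nq (fun j => ∑ i, M i j * c i) ≤ (∑ i, ∑ j, Complex.normSq (M i j)) * nq c := by
  rw [Finset.sum_comm, Finset.sum_mul]
  refine Finset.sum_le_sum fun j _ => ?_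
  have h1 : Complex.normSq (∑ i, M i j * c i) ≤ (∑ i, ‖M i j‖ * ‖c i‖) ^ 2 := by
    rw [Complex.normSq_eq_norm_sq]
    have h2 : ‖∑ i, M i j * c i‖ ≤ ∑ i, ‖M i j‖ * ‖c i‖ := by
      refine (norm_sum_le _ _).trans (Finset.sum_le_sum fun i _ => ?_)
      rw [norm_mul]
    exact pow_le_pow_left₀ (norm_nonneg _) h2 2
  refine h1.trans ((Finset.sum_mul_sq_le_sq_mul_sq _ _ _).trans (le_of_eq ?_))
  simp only [nq, Complex.normSq_eq_norm_sq]

/-- the size of the Jacobian matrix -/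
noncomputable def TRS_S (F : Fin 3 → MvPolynomial (Fin 3) ℂ) (W : E3) : ℝ :=
  1 + ∑ i, ∑ j, Complex.normSq (TRS_M F W i j)

theorem TRS_S_pos (F : Fin 3 → MvPolynomial (Fin 3) ℂ) (W : E3) : 0 < TRS_S F W := by
  have : 0 ≤ ∑ i, ∑ j, Complex.normSq (TRS_M F W i j) :=
    Finset.sum_nonneg fun i _ => Finset.sum_nonneg fun j _ => Complex.normSq_nonneg _
  unfold TRS_S
  linarith

theorem TRS_low {d : ℕ} {F : Fin 3 → MvPolynomial (Fin 3) ℂ} (hom : ∀ i, (F i).IsHomogeneous d) (W Y : E3) :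
    Complex.normSq (TRS_M F W).det * nq (crs W Y) ≤
      TRS_S F W * ((d : ℝ) ^ 2 * nq (crs (pmap F W) ((TRS_M F W).mulVec Y))) := by
  have h1 : (TRS_M F W).det • crs W Y =
      fun j => ∑ i, TRS_M F W i j * ((d : ℂ) • crs (pmap F W) ((TRS_M F W).mulVec Y)) i := by
    funext j
    have h2 := TRS_cof (TRS_M F W) W Y j
    rw [TRS_euler hom] at h2
    have h3 : crs ((d : ℂ) • pmap F W) ((TRS_M F W).mulVec Y) = (d : ℂ) • crs (pmap F W) ((TRS_M F W).mulVec Y) := by
      have := TRS_crs_smul (d : ℂ) 1 (pmap F W) ((TRS_M F W).mulVec Y)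
      rwa [one_smul, mul_one] at this
    rw [h3] at h2
    rw [h2]
    rfl
  have h4 := TRS_cs (TRS_M F W) ((d : ℂ) • crs (pmap F W) ((TRS_M F W).mulVec Y))
  rw [← h1, TRS_nq_smul, TRS_nq_smul] at h4
  have h5 : Complex.normSq (d : ℂ) = (d : ℝ) ^ 2 := by
    rw [Complex.normSq_natCast, sq]
  rw [h5] at h4
  refine h4.trans ?_
  refine mul_le_mul_of_nonneg_right ?_ (mul_nonneg (sq_nonneg _) (TRS_nq_nonneg _))
  unfold TRS_S
  linarith

theorem TRS_ar {d : ℕ} (hd : 0 < d) {F : Fin 3 → MvPolynomial (Fin 3) ℂ} (hom : ∀ i, (F i).IsHomogeneous d)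
    (nd : ∀ x : Fin 3 → ℂ, (∀ i, eval x (F i) = 0) → x = 0)
    {Y : ℂ → E3} {z : ℂ} (hY : DifferentiableAt ℂ Y z) {c : ℝ} (h0 : Y z ≠ 0)
    (hc : c * (TRS_S F (Y z) * ((d : ℝ) ^ 2 * nq (pmap F (Y z)) ^ 2)) ≤
      Complex.normSq (TRS_M F (Y z)).det * nq (Y z) ^ 2) :
    c * ar Y z ≤ ar (fun t => pmap F (Y t)) z := by
  have hd' : HasDerivAt (fun t => pmap F (Y t)) ((TRS_M F (Y z)).mulVec (deriv Y z)) z := by
    rw [hasDerivAt_pi]
    intro i
    exact TRS_deriv (F i) hY.hasDerivAt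
  unfold ar
  rw [hd'.deriv]
  have hn := TRS_nq_pos h0
  have hn2 := TRS_nq_pos (pmap_ne nd h0)
  have h1 := TRS_low hom (Y z) (deriv Y z)
  set n1 := nq (crs (Y z) (deriv Y z)) with hn1
  set n2 := nq (crs (pmap F (Y z)) ((TRS_M F (Y z)).mulVec (deriv Y z))) with hn2'
  set J := Complex.normSq (TRS_M F (Y z)).det with hJ
  set S := TRS_S F (Y z) with hS
  have hSp : 0 < S := TRS_S_pos _ _
  have hdp : (0 : ℝ) < (d : ℝ) ^ 2 := by positivity
  have hn1p : 0 ≤ n1 := TRS_nq_nonneg _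
  rw [← mul_div_assoc, div_le_div_iff₀ (by positivity) (by positivity)]
  have h2 : (S * (d : ℝ) ^ 2) * (c * n1 * (nq (pmap F (Y z)) ^ 2)) ≤ (S * (d : ℝ) ^ 2) * (n2 * nq (Y z) ^ 2) := by
    calc (S * (d : ℝ) ^ 2) * (c * n1 * (nq (pmap F (Y z)) ^ 2))
        = (c * (S * ((d : ℝ) ^ 2 * nq (pmap F (Y z)) ^ 2))) * n1 := by ring
      _ ≤ (J * nq (Y z) ^ 2) * n1 := mul_le_mul_of_nonneg_right hc hn1p
      _ = (J * n1) * nq (Y z) ^ 2 := by ring
      _ ≤ (S * ((d : ℝ) ^ 2 * n2)) * nq (Y z) ^ 2 := mul_le_mul_of_nonneg_right h1 (sq_nonneg _)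
      _ = (S * (d : ℝ) ^ 2) * (n2 * nq (Y z) ^ 2) := by ring
  have h3 := le_of_mul_le_mul_left h2 (by positivity)
  calc c * n1 * (2 * nq (pmap F (Y z)) ^ 2) = 2 * (c * n1 * (nq (pmap F (Y z)) ^ 2)) := by ring
    _ ≤ 2 * (n2 * nq (Y z) ^ 2) := by linarith
    _ = n2 * (2 * nq (Y z) ^ 2) := by ring

theorem TRS_ar_smul {c : ℂ} (hc : c ≠ 0) (Y : ℂ → E3) (z : ℂ) : ar (fun t => c • Y t) z = ar Y z := by
  unfold ar
  have h1 : deriv (fun t => c • Y t) z = c • deriv Y z := deriv_const_smul_field c Y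
  rw [h1, TRS_crs_smul, TRS_nq_smul, TRS_nq_smul, Complex.normSq_mul, mul_pow]
  have h2 : Complex.normSq c * Complex.normSq c ≠ 0 := by
    have := Complex.normSq_pos.2 hc
    positivity
  rw [show 2 * (Complex.normSq c ^ 2 * nq (Y z) ^ 2) = (Complex.normSq c * Complex.normSq c) * (2 * nq (Y z) ^ 2) by ring]
  exact mul_div_mul_left _ _ h2

theorem TRS_mv_smul (A : M3) (c : ℂ) (Z : E3) : mv A (c • Z) = c • mv A Z := by
  funext i
  simp only [mv, Pi.smul_apply, smul_eq_mul, Finset.mul_sum]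
  exact Finset.sum_congr rfl fun j _ => by ring

theorem TRS_mv_deriv (A : M3) {Z : ℂ → E3} {Z' : E3} {z : ℂ} (h : HasDerivAt Z Z' z) :
    HasDerivAt (fun t => mv A (Z t)) (mv A Z') z := by
  rw [hasDerivAt_pi]
  intro i
  exact HasDerivAt.fun_sum fun j _ => ((hasDerivAt_pi.1 h) j).const_mul (A i j)

theorem TRS_mv_cont : Continuous fun P : M3 × E3 => mv P.1 P.2 := by
  refine continuous_pi fun i => continuous_finsetSum _ fun j _ => ?_
  exact ((continuous_apply_apply (ρ := fun _ _ => ℂ) i j).comp continuous_fst).mul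
    ((continuous_apply j).comp continuous_snd)

theorem TRS_ar_mv (hRAD : RAD_stmt) {A : M3} (hA : Near (1 / 100) A) {Z : ℂ → E3} {z : ℂ}
    (hZ : DifferentiableAt ℂ Z z) (h0 : Z z ≠ 0) : (1 / 64) * ar Z z ≤ ar (fun t => mv A (Z t)) z := by
  obtain ⟨-, -, h3, h4, h5, -⟩ := hRAD.2.1 A hA (Z z) (deriv Z z)
  unfold ar
  rw [(TRS_mv_deriv A hZ.hasDerivAt).deriv]
  have hn := TRS_nq_pos h0
  have hn2 : 0 < nq (mv A (Z z)) := lt_of_lt_of_le (by positivity) h3
  have h6 : nq (mv A (Z z)) ^ 2 ≤ (4 * nq (Z z)) ^ 2 := pow_le_pow_left₀ hn2.le h4 2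
  have hc := TRS_nq_nonneg (crs (Z z) (deriv Z z))
  calc (1 / 64) * (nq (crs (Z z) (deriv Z z)) / (2 * nq (Z z) ^ 2))
      = ((1 / 4) * nq (crs (Z z) (deriv Z z))) / (2 * (4 * nq (Z z)) ^ 2) := by
        field_simp
        ring
    _ ≤ nq (crs (mv A (Z z)) (mv A (deriv Z z))) / (2 * nq (mv A (Z z)) ^ 2) := by
        refine div_le_div₀ (TRS_nq_nonneg _) h5 (by positivity) (by linarith)

theorem TRS_bmp_cont : Continuous bmp := by
  unfold bmp
  exact Real.smoothTransition.continuous.comp (continuous_const.sub (continuous_const.mul Complex.continuous_normSq))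

theorem TRS_bmp_pos : 0 < ∫ t, bmp t := by
  refine Continuous.integral_pos_of_hasCompactSupport_nonneg_nonzero TRS_bmp_cont ?_ (fun t => Real.smoothTransition.nonneg _)
    (x := 0) ?_
  · refine HasCompactSupport.intro (isCompact_closedBall (0 : ℂ) 1) fun x hx => ?_
    unfold bmp
    refine Real.smoothTransition.zero_of_nonpos ?_
    rw [mem_closedBall, dist_zero_right, not_le] at hx
    rw [Complex.normSq_eq_norm_sq]
    nlinarith
  · unfold bmp
    rw [Real.smoothTransition.one_of_one_le (by simp)]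
    exact one_ne_zero

theorem TRS_phr {r : ℝ} (hr : 0 < r) {s : ℂ} (hs : ‖s‖ < r / 2) : phr r s = (r ^ 2)⁻¹ * (∫ t, bmp t)⁻¹ := by
  unfold phr
  have h1 : bmp ((r : ℂ)⁻¹ * s) = 1 := by
    unfold bmp
    refine Real.smoothTransition.one_of_one_le ?_
    rw [Complex.normSq_eq_norm_sq, norm_mul, norm_inv, Complex.norm_real, Real.norm_eq_abs, abs_of_pos hr]
    have h2 : r⁻¹ * ‖s‖ < 1 / 2 := by
      rw [inv_mul_lt_iff₀ hr]
      linarith
    have h3 : 0 ≤ r⁻¹ * ‖s‖ := by positivity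
    nlinarith
  rw [h1, mul_one]

theorem TRS_near_open (ρ : ℝ) : IsOpen {A : M3 | Near ρ A} := by
  have : {A : M3 | Near ρ A} = ⋂ i : Fin 3, ⋂ j : Fin 3, {A : M3 | ‖A i j - one3 i j‖ < ρ} := by
    ext A
    simp only [Near, Set.mem_ofPred_eq, Set.mem_iInter]
  rw [this]
  refine isOpen_iInter_of_finite fun i => isOpen_iInter_of_finite fun j => ?_
  exact isOpen_lt ((continuous_apply_apply (ρ := fun _ _ => ℂ) i j).sub continuous_const).norm continuous_const

theorem TRS_It {d : ℕ} (f : Endo 2 d) (W : E3) : It f 1 W = Pool.Agent.helper37.QA.pmap f.F W := by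
  have h := pmap_iter_succ f.F 0 W
  rw [pmap_iter_zero] at h
  exact h

theorem TRS_M_cont (F : Fin 3 → MvPolynomial (Fin 3) ℂ) : Continuous (TRS_M F) :=
  continuous_pi fun i => continuous_pi fun j => MvPolynomial.continuous_eval (pderiv j (F i))

theorem TRS_S_cont (F : Fin 3 → MvPolynomial (Fin 3) ℂ) : Continuous (TRS_S F) := by
  unfold TRS_S
  refine continuous_const.add (continuous_finsetSum _ fun i _ => continuous_finsetSum _ fun j _ => ?_)
  exact Complex.continuous_normSq.comp (MvPolynomial.continuous_eval (pderiv j (F i)))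

/-- the points near which the Jacobian is bounded below -/
def TRS_W (F : Fin 3 → MvPolynomial (Fin 3) ℂ) (d : ℕ) (c : ℝ) (N : Set (PP 2)) : Set E3 :=
  {W | W ≠ 0 ∧ Pool.Agent.helper37.QA.pmap F W ∈ cone N ∧
    c * (TRS_S F W * ((d : ℝ) ^ 2 * nq (Pool.Agent.helper37.QA.pmap F W) ^ 2)) < Complex.normSq (TRS_M F W).det * nq W ^ 2}

theorem TRS_W_open (F : Fin 3 → MvPolynomial (Fin 3) ℂ) (d : ℕ) (c : ℝ) {N : Set (PP 2)} (hN : IsOpen N) :
    IsOpen (TRS_W F d c N) := by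
  have h1 : IsOpen {W : E3 | W ≠ 0} := isOpen_ne
  have h2 : IsOpen {W : E3 | Pool.Agent.helper37.QA.pmap F W ∈ cone N} := (cone_open hN).preimage (pmap_cont F)
  have h3 : IsOpen {W : E3 | c * (TRS_S F W * ((d : ℝ) ^ 2 * nq (Pool.Agent.helper37.QA.pmap F W) ^ 2)) <
      Complex.normSq (TRS_M F W).det * nq W ^ 2} := by
    refine isOpen_lt ?_ ?_
    · exact continuous_const.mul ((TRS_S_cont F).mul (continuous_const.mul ((TRS_nq_cont.comp (pmap_cont F)).pow 2)))
    · exact (Complex.continuous_normSq.comp (TRS_M_cont F).matrix_det).mul (TRS_nq_cont.pow 2)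
  exact h1.inter (h2.inter h3)

/-- the pointwise estimate -/
theorem TRS_pt (hRAD : RAD_stmt) {d : ℕ} (hd : 0 < d) {F : Fin 3 → MvPolynomial (Fin 3) ℂ}
    (hom : ∀ i, (F i).IsHomogeneous d) (nd : ∀ x : Fin 3 → ℂ, (∀ i, eval x (F i) = 0) → x = 0)
    {c : ℝ} (hc : 0 < c) {N : Set (PP 2)} {A : M3} (hA : Near (1 / 100) A) {Z : ℂ → E3} {z : ℂ}
    (hZ : DifferentiableAt ℂ Z z) (h0 : Z z ≠ 0) {a : ℂ} (ha : a ≠ 0) (hW : mv A (a • Z z) ∈ TRS_W F d c N) :
    Pool.Agent.helper37.QA.pmap F (mv A (Z z)) ∈ cone N ∧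
      c / 64 * ar Z z ≤ ar (fun t => Pool.Agent.helper37.QA.pmap F (mv A (Z t))) z := by
  obtain ⟨hW0, hWN, hWc⟩ := hW
  have hsm : ∀ t, mv A (a • Z t) = a • mv A (Z t) := fun t => TRS_mv_smul A a (Z t)
  constructor
  · rw [hsm, pmap_smul hom] at hWN
    have := cone_smul hWN (inv_ne_zero (pow_ne_zero d ha))
    rwa [smul_smul, inv_mul_cancel₀ (pow_ne_zero d ha), one_smul] at this
  · have hY : DifferentiableAt ℂ (fun t => mv A (a • Z t)) z :=
      (TRS_mv_deriv A (hZ.hasDerivAt.const_smul a)).differentiableAt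
    have h1 := TRS_ar hd hom nd (Y := fun t => mv A (a • Z t)) hY hW0 hWc.le
    have h2 : ar (fun t => mv A (a • Z t)) z = ar (fun t => mv A (Z t)) z := by
      rw [show (fun t => mv A (a • Z t)) = fun t => a • mv A (Z t) from funext hsm]
      exact TRS_ar_smul ha _ z
    have h3 : ar (fun t => Pool.Agent.helper37.QA.pmap F (mv A (a • Z t))) z =
        ar (fun t => Pool.Agent.helper37.QA.pmap F (mv A (Z t))) z := by
      rw [show (fun t => Pool.Agent.helper37.QA.pmap F (mv A (a • Z t))) =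
        fun t => a ^ d • Pool.Agent.helper37.QA.pmap F (mv A (Z t)) from funext fun t => by rw [hsm, pmap_smul hom]]
      exact TRS_ar_smul (pow_ne_zero d ha) _ z
    rw [h2, h3] at h1
    have h4 := TRS_ar_mv hRAD hA hZ h0
    calc c / 64 * ar Z z = c * ((1 / 64) * ar Z z) := by ring
      _ ≤ c * ar (fun t => mv A (Z t)) z := mul_le_mul_of_nonneg_left h4 hc.le
      _ ≤ _ := h1

theorem TRS_near_mono {ρ σ : ℝ} (h : ρ ≤ σ) {A : M3} (hA : Near ρ A) : Near σ A := fun i j => (hA i j).trans_le h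

theorem TRS (hRAD : RAD_stmt) : TRS_stmt := by
  classical
  intro d f U r hd hG hr hr1 hRad p hp q hq N hN hfq
  obtain ⟨Zp, ⟨hZp0, hZpp⟩, A0, hA0, hW0, hqe⟩ := hq
  have hdp : 0 < d := by omega
  have hFW0 : Pool.Agent.helper37.QA.pmap f.F (mv A0 Zp) ∈ cone N := by
    refine ⟨pmap_ne f.nondeg hW0, ?_⟩
    rw [← map_toPP f hW0, ← hqe]
    exact hfq
  have hJ := TRS_det hd f.hom f.nondeg
  set J : MvPolynomial (Fin 3) ℂ :=
    Matrix.det (Matrix.of fun i j => pderiv j (f.F i) : Matrix (Fin 3) (Fin 3) (MvPolynomial (Fin 3) ℂ)) with hJdef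
  obtain ⟨Ws, hWs⟩ : ∃ Ws : E3, eval Ws J ≠ 0 := by
    by_contra hcon
    push Not at hcon
    refine hJ (MvPolynomial.funext fun x => ?_)
    rw [hcon x]
    simp
  obtain ⟨j0, hj0⟩ := Function.ne_iff.1 hZp0
  set B : M3 := fun i j => if j = j0 then Ws i / Zp j0 else 0 with hB
  have hBZ : mv B Zp = Ws := by
    funext i
    simp only [mv, hB, ite_mul, zero_mul, Finset.sum_ite_eq', Finset.mem_univ, if_true]
    exact div_mul_cancel₀ _ hj0
  set At : ℂ → M3 := fun t i j => A0 i j + t * (B i j - A0 i j) with hAt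
  have hAtc : Continuous At :=
    continuous_pi fun i => continuous_pi fun j => continuous_const.add (continuous_id.mul continuous_const)
  have hAt0 : At 0 = A0 := by
    funext i j
    simp [hAt]
  have hmvAt : ∀ t, mv (At t) Zp = fun i => mv A0 Zp i + t * (Ws i - mv A0 Zp i) := by
    intro t
    funext i
    rw [← hBZ]
    simp only [mv, hAt]
    rw [← Finset.sum_sub_distrib, Finset.mul_sum, ← Finset.sum_add_distrib]
    exact Finset.sum_congr rfl fun j _ => by ring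
  -- a parameter with nonzero Jacobian
  have hgd : Differentiable ℂ fun t : ℂ => eval (fun i => mv A0 Zp i + t * (Ws i - mv A0 Zp i)) J := by
    refine (Pool.Agent.helper15.QB.eval_diff J).comp ?_
    exact differentiable_pi.2 fun i => (differentiable_const _).add (differentiable_id.mul (differentiable_const _))
  have hg1 : eval (fun i => mv A0 Zp i + (1 : ℂ) * (Ws i - mv A0 Zp i)) J ≠ 0 := by
    have : (fun i => mv A0 Zp i + (1 : ℂ) * (Ws i - mv A0 Zp i)) = Ws := by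
      funext i
      ring
    rw [this]
    exact hWs
  have hev1 : ∀ᶠ t in 𝓝[≠] (0 : ℂ), eval (fun i => mv A0 Zp i + t * (Ws i - mv A0 Zp i)) J ≠ 0 := by
    by_contra hcon
    have hfr : ∃ᶠ t in 𝓝[≠] (0 : ℂ), eval (fun i => mv A0 Zp i + t * (Ws i - mv A0 Zp i)) J = 0 := by
      intro h
      exact hcon h
    have han : AnalyticOnNhd ℂ (fun t : ℂ => eval (fun i => mv A0 Zp i + t * (Ws i - mv A0 Zp i)) J) univ :=
      fun t _ => hgd.analyticAt t
    have := han.eqOn_zero_of_preconnected_of_frequently_eq_zero isPreconnected_univ (mem_univ 0) hfr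
    exact hg1 (this (mem_univ 1))
  have hev2 : ∀ᶠ t in 𝓝 (0 : ℂ), Near (r / 2) (At t) :=
    ((TRS_near_open (r / 2)).preimage hAtc).mem_nhds (by
      change Near (r / 2) (At 0)
      rw [hAt0]
      exact hA0)
  have hmc : Continuous fun t => mv (At t) Zp := TRS_mv_cont.comp (hAtc.prodMk continuous_const)
  have hev3 : ∀ᶠ t in 𝓝 (0 : ℂ), Pool.Agent.helper37.QA.pmap f.F (mv (At t) Zp) ∈ cone N :=
    ((cone_open hN).preimage ((pmap_cont f.F).comp hmc)).mem_nhds (by
      change Pool.Agent.helper37.QA.pmap f.F (mv (At 0) Zp) ∈ cone N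
      rw [hAt0]
      exact hFW0)
  have hev4 : ∀ᶠ t in 𝓝 (0 : ℂ), mv (At t) Zp ≠ 0 :=
    (isOpen_ne.preimage hmc).mem_nhds (by
      change mv (At 0) Zp ≠ 0
      rw [hAt0]
      exact hW0)
  obtain ⟨t, ht1, ht2, ht3, ht4⟩ := (hev1.and ((hev2.filter_mono nhdsWithin_le_nhds).and
    ((hev3.filter_mono nhdsWithin_le_nhds).and (hev4.filter_mono nhdsWithin_le_nhds)))).exists
  set A1 : M3 := At t with hA1
  have hJ1 : (TRS_M f.F (mv A1 Zp)).det ≠ 0 := by
    rw [TRS_M_det, hmvAt]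
    exact ht1
  -- the constant
  set x0 : ℝ := Complex.normSq (TRS_M f.F (mv A1 Zp)).det * nq (mv A1 Zp) ^ 2 with hx0
  set y0 : ℝ := TRS_S f.F (mv A1 Zp) * ((d : ℝ) ^ 2 * nq (Pool.Agent.helper37.QA.pmap f.F (mv A1 Zp)) ^ 2) with hy0
  have hx0p : 0 < x0 := mul_pos (Complex.normSq_pos.2 hJ1) (pow_pos (TRS_nq_pos ht4) 2)
  have hy0p : 0 < y0 := by
    refine mul_pos (TRS_S_pos _ _) (mul_pos (by positivity) (pow_pos (TRS_nq_pos (pmap_ne f.nondeg ht4)) 2))
  set c1 : ℝ := x0 / (2 * y0) with hc1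
  have hc1p : 0 < c1 := by positivity
  have hmem : mv A1 Zp ∈ TRS_W f.F d c1 N := by
    refine ⟨ht4, ht3, ?_⟩
    change c1 * y0 < x0
    rw [hc1, div_mul_eq_mul_div, div_lt_iff₀ (by positivity)]
    nlinarith [mul_pos hx0p hy0p]
  -- the neighbourhoods
  have hO : IsOpen {P : M3 × E3 | mv P.1 P.2 ∈ TRS_W f.F d c1 N ∧ Near (r / 2) P.1} :=
    ((TRS_W_open f.F d c1 hN).preimage TRS_mv_cont).inter ((TRS_near_open (r / 2)).preimage continuous_fst)
  obtain ⟨ε, hε, hball⟩ := Metric.isOpen_iff.1 hO (A1, Zp) ⟨hmem, ht2⟩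
  rw [← ball_prod_same] at hball
  set Pn : Set (PP 2) := {x | ∃ (Z : E3) (h : Z ≠ 0), Z ∈ ball Zp ε ∧ toPP ⟨Z, h⟩ = x} with hPn
  have hPno : IsOpen Pn := by
    refine isOpen_coinduced.2 ?_
    have h1 : (toPP (k := 2)) ⁻¹' Pn = ⋃ a : {a : ℂ // a ≠ 0}, {v | a.1 • v.1 ∈ ball Zp ε} := by
      ext v
      simp only [Set.mem_preimage, Set.mem_iUnion]
      constructor
      · rintro ⟨Z, h, hZb, hZv⟩
        obtain ⟨a, ha⟩ := (Projectivization.mk_eq_mk_iff' ℂ Z v.1 h v.2).1 hZv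
        refine ⟨⟨a, ?_⟩, ?_⟩
        · rintro rfl
          rw [zero_smul] at ha
          exact h ha.symm
        · change a • v.1 ∈ ball Zp ε
          rw [ha]
          exact hZb
      · rintro ⟨a, ha⟩
        exact ⟨a.1 • v.1, smul_ne_zero a.2 v.2, ha, toPP_eq _ v.2 a.1 rfl⟩
    rw [h1]
    refine isOpen_iUnion fun a => ?_
    exact isOpen_ball.preimage (continuous_subtype_val.const_smul a.1)
  have hPnp : p ∈ Pn := ⟨Zp, hZp0, mem_ball_self hε, hZpp⟩
  set κ : ℝ := ∏ _i : Fin 3, ∏ _j : Fin 3, (r ^ 2)⁻¹ * (∫ t, bmp t)⁻¹ with hκ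
  have hκp : 0 < κ := Finset.prod_pos fun _ _ => Finset.prod_pos fun _ _ =>
    mul_pos (by positivity) (inv_pos.2 TRS_bmp_pos)
  have hvol0 : 0 < volume (ball A1 ε) := measure_ball_pos _ _ hε
  have hvolt : volume (ball A1 ε) < ⊤ := measure_ball_lt_top
  set v : ℝ := (volume (ball A1 ε)).toReal with hv
  have hvp : 0 < v := ENNReal.toReal_pos hvol0.ne' hvolt.ne
  refine ⟨Pn, κ * (c1 / 64) * v, hPno, hPnp, by positivity, fun Z hZ => ?_⟩
  have hpt : ∀ A ∈ ball A1 ε, ENNReal.ofReal (c1 / 64) * arm Pn Z ≤ arm N (fun z => It f 1 (mv A (Z z))) := by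
    intro A hA
    unfold arm
    rw [← lintegral_const_mul' _ _ ENNReal.ofReal_ne_top]
    refine lintegral_mono fun z => ?_
    by_cases hz : Z z ∈ cone Pn
    swap
    · simp only [if_neg hz, mul_zero, zero_le]
    simp only [if_pos hz]
    by_cases hzb : z ∈ ball (0 : ℂ) 1
    swap
    · have he : eta z = 0 := by
        unfold eta
        refine Real.smoothTransition.zero_of_nonpos ?_
        rw [mem_ball, dist_zero_right, not_lt] at hzb
        rw [Complex.normSq_eq_norm_sq]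
        nlinarith
      rw [he]
      simp
    obtain ⟨hz0, Y, hY0, hYb, hYe⟩ := hz
    obtain ⟨a, ha⟩ := (Projectivization.mk_eq_mk_iff' ℂ Y (Z z) hY0 hz0).1 hYe
    have ha0 : a ≠ 0 := by
      rintro rfl
      rw [zero_smul] at ha
      exact hY0 ha.symm
    have hin := hball (show ((A, a • Z z) : M3 × E3) ∈ ball A1 ε ×ˢ ball Zp ε from ⟨hA, by rw [ha]; exact hYb⟩)
    have hnr : Near (1 / 100) A := TRS_near_mono (by linarith) hin.2
    have hdz : DifferentiableAt ℂ Z z := (hZ.1 z hzb).differentiableAt (isOpen_ball.mem_nhds hzb)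
    obtain ⟨h1, h2⟩ := TRS_pt hRAD hdp f.hom f.nondeg hc1p hnr hdz hz0 ha0 hin.1
    have h3 : ∀ z', It f 1 (mv A (Z z')) = Pool.Agent.helper37.QA.pmap f.F (mv A (Z z')) := fun z' => TRS_It f _
    simp only [h3]
    rw [if_pos h1, ← ENNReal.ofReal_mul (by positivity)]
    refine ENNReal.ofReal_le_ofReal ?_
    calc c1 / 64 * (eta z ^ 2 * ar Z z) = eta z ^ 2 * (c1 / 64 * ar Z z) := by ring
      _ ≤ _ := mul_le_mul_of_nonneg_left h2 (sq_nonneg _)
  have hrho : ∀ A ∈ ball A1 ε, rho r A = κ := by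
    intro A hA
    have hin := hball (show ((A, Zp) : M3 × E3) ∈ ball A1 ε ×ˢ ball Zp ε from ⟨hA, mem_ball_self hε⟩)
    unfold rho
    exact Finset.prod_congr rfl fun i _ => Finset.prod_congr rfl fun j _ => TRS_phr hr (hin.2 i j)
  unfold stp
  calc ENNReal.ofReal (κ * (c1 / 64) * v) * arm Pn Z
      = ∫⁻ _A in ball A1 ε, ENNReal.ofReal κ * (ENNReal.ofReal (c1 / 64) * arm Pn Z) := by
        rw [setLIntegral_const, ENNReal.ofReal_mul (by positivity), ENNReal.ofReal_mul (by positivity), hv,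
          ENNReal.ofReal_toReal hvolt.ne]
        ring
    _ ≤ ∫⁻ A in ball A1 ε, ENNReal.ofReal (rho r A) * arm N (fun z => It f 1 (mv A (Z z))) := by
        refine setLIntegral_mono' measurableSet_ball fun A hA => ?_
        rw [hrho A hA]
        gcongr
        exact hpt A hA
    _ ≤ _ := setLIntegral_le_lintegral _ _

end Pool.Agent.P2
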