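import Pool.Agent.helper15.P2.SpecB
import Pool.Agent.helper49.P2.OSG

set_option autoImplicit false

/-! Row `p2:BSL`. -/

open scoped ContDiff Topology ComplexConjugate ENNReal
open MeasureTheory Filter Set Metric

namespace Pool.Agent.P2B

open Pool.Agent.P2 Pool.Agent.P2I

theorem BSL_open : IsOpen BI := isOpen_ball.prod isOpen_ball

theorem BSL_x {f : ℂ × ℂ → ℂ} (hf : DifferentiableOn ℂ f BI) {x v : ℂ} (hx : x ∈ ball (0 : ℂ) 1)
    (hv : v ∈ ball (0 : ℂ) 1) : HasDerivAt (sl f v) (fderiv ℂ f (x, v) (1, 0)) x := by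
  have h1 : HasFDerivAt f (fderiv ℂ f (x, v)) (x, v) :=
    (hf.differentiableAt (BSL_open.mem_nhds ⟨hx, hv⟩)).hasFDerivAt
  have h2 : HasDerivAt (fun y : ℂ => (y, v)) ((1 : ℂ), (0 : ℂ)) x := (hasDerivAt_id x).prodMk (hasDerivAt_const x v)
  exact HasFDerivAt.comp_hasDerivAt (f := fun y : ℂ => (y, v)) x h1 h2

theorem BSL_v {f : ℂ × ℂ → ℂ} (hf : DifferentiableOn ℂ f BI) {x v : ℂ} (hx : x ∈ ball (0 : ℂ) 1)
    (hv : v ∈ ball (0 : ℂ) 1) : HasDerivAt (fun w => f (x, w)) (fderiv ℂ f (x, v) (0, 1)) v := by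
  have h1 : HasFDerivAt f (fderiv ℂ f (x, v)) (x, v) :=
    (hf.differentiableAt (BSL_open.mem_nhds ⟨hx, hv⟩)).hasFDerivAt
  have h2 : HasDerivAt (fun w : ℂ => (x, w)) ((0 : ℂ), (1 : ℂ)) v := (hasDerivAt_const v x).prodMk (hasDerivAt_id v)
  exact HasFDerivAt.comp_hasDerivAt (f := fun w : ℂ => (x, w)) v h1 h2

theorem BSL : BSL_stmt := by
  intro P Q E hND v hv
  have hw1 : ∀ p ∈ BI, w1 P Q p = Wr (sl P p.2) (sl Q p.2) p.1 := by
    rintro ⟨x, w⟩ ⟨hx, hw⟩
    unfold w1 Wr
    rw [(BSL_x hND.dP hx hw).deriv, (BSL_x hND.dQ hx hw).deriv]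
    rfl
  refine ⟨⟨?_, ?_, ?_⟩, ?_, ?_, ?_⟩
  · intro x hx
    exact (BSL_x hND.dP hx hv).differentiableAt.differentiableWithinAt
  · intro x hx
    exact (BSL_x hND.dQ hx hv).differentiableAt.differentiableWithinAt
  · intro x hx
    exact hND.ne (x, v) ⟨hx, hv⟩
  · intro x hx
    exact hND.bd (x, v) ⟨hx, hv⟩
  · intro x hx
    refine ⟨hw1 (x, v) ⟨hx, hv⟩, ?_⟩
    unfold w2
    rw [(BSL_v hND.dP hx hv).deriv, (BSL_v hND.dQ hx hv).deriv]
  · have hc1 : ContinuousOn (w1 P Q) BI := by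
      unfold w1
      have hP := (OSG_cont BSL_open hND.dP).clm_apply (continuousOn_const (c := ((1 : ℂ), (0 : ℂ))))
      have hQ := (OSG_cont BSL_open hND.dQ).clm_apply (continuousOn_const (c := ((1 : ℂ), (0 : ℂ))))
      exact (hND.dQ.continuousOn.mul hP).sub (hND.dP.continuousOn.mul hQ)
    have hc2 : ContinuousOn (fun p : ℂ × ℂ => Complex.normSq (w1 P Q p) /
        (Complex.normSq (P p) + Complex.normSq (Q p)) ^ 2) BI := by
      refine ContinuousOn.div ?_ ?_ ?_
      · exact Complex.continuous_normSq.comp_continuousOn hc1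
      · exact ((Complex.continuous_normSq.comp_continuousOn hND.dP.continuousOn).add
          (Complex.continuous_normSq.comp_continuousOn hND.dQ.continuousOn)).pow 2
      · intro p hp
        have h1 := Complex.normSq_nonneg (P p)
        have h2 := Complex.normSq_nonneg (Q p)
        rcases hND.ne p hp with h | h
        · have := Complex.normSq_pos.2 h
          positivity
        · have := Complex.normSq_pos.2 h
          positivity
    refine hc2.congr fun p hp => ?_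
    unfold sph
    rw [← hw1 p hp]
    rfl

end Pool.Agent.P2B
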