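import Pool.Agent.helper83.P2.SpecV

set_option autoImplicit false

/-! Row p2:VDS (MP_063734_an): change of variables on disjoint images. -/

open scoped ContDiff Topology
open MeasureTheory Filter Set Metric MvPolynomial Pool.Agent.helper37.QA Pool.Agent.P2

namespace Pool.Agent.P2V

theorem VDS_det (A : ℂ →L[ℂ] ℂ) : |(A.restrictScalars ℝ).det| = Complex.normSq (A 1) := by
  have h1 : (A.restrictScalars ℝ).det = LinearMap.det ((A : ℂ →ₗ[ℂ] ℂ).restrictScalars ℝ) := rfl
  rw [h1, LinearMap.det_restrictScalars, Algebra.norm_complex_apply, LinearMap.det_ring]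
  exact abs_of_nonneg (Complex.normSq_nonneg _)

theorem VDS_fderiv {g : ℂ → ℂ} (hg : DifferentiableOn ℂ g (ball 0 1)) :
    ∀ x ∈ ball (0 : ℂ) 1, HasFDerivWithinAt g ((fderiv ℂ g x).restrictScalars ℝ) (ball 0 1) x := by
  intro x hx
  exact ((hg.differentiableAt (isOpen_ball.mem_nhds hx)).hasFDerivAt.restrictScalars ℝ).hasFDerivWithinAt

theorem VDS : VDS_stmt := by
  intro n g G hg hdis hG0 hGi
  have hmeas : ∀ a, MeasurableSet (g a '' ball 0 1) := fun a =>
    MeasureTheory.measurable_image_of_fderivWithin measurableSet_ball (VDS_fderiv (hg a).1) (hg a).2.1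
  have hsub : ∀ a, g a '' ball 0 1 ⊆ ball (0 : ℂ) 1 := by
    rintro a _ ⟨ξ, hξ, rfl⟩
    exact (hg a).2.2 ξ hξ
  have hint : ∀ a, IntegrableOn G (g a '' ball 0 1) := fun a => hGi.mono_set (hsub a)
  have heq : ∀ a, (fun ξ => |((fderiv ℂ (g a) ξ).restrictScalars ℝ).det| • G (g a ξ)) =
      fun ξ => G (g a ξ) * Complex.normSq (deriv (g a) ξ) := by
    intro a
    funext ξ
    rw [VDS_det, fderiv_apply_one_eq_deriv, smul_eq_mul, mul_comm]
  have h1 : ∀ a, IntegrableOn (fun ξ => G (g a ξ) * Complex.normSq (deriv (g a) ξ)) (ball 0 1) := by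
    intro a
    have h := (integrableOn_image_iff_integrableOn_abs_det_fderiv_smul volume measurableSet_ball
      (VDS_fderiv (hg a).1) (hg a).2.1 G).1 (hint a)
    rw [heq a] at h
    exact h
  refine ⟨h1, ?_⟩
  have h2 : ∀ a, ∫ ξ in ball (0 : ℂ) 1, G (g a ξ) * Complex.normSq (deriv (g a) ξ) = ∫ z in g a '' ball 0 1, G z := by
    intro a
    rw [integral_image_eq_integral_abs_det_fderiv_smul volume measurableSet_ball
      (VDS_fderiv (hg a).1) (hg a).2.1 G, heq a]
  rw [Finset.sum_congr rfl fun a _ => h2 a,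
    ← integral_iUnion_fintype hmeas (fun a b hab => hdis a b hab) hint]
  refine setIntegral_mono_set hGi ?_ (HasSubset.Subset.eventuallyLE (iUnion_subset hsub))
  rw [Filter.EventuallyLE, ae_restrict_iff' measurableSet_ball]
  exact Eventually.of_forall fun z hz => hG0 z hz

end Pool.Agent.P2V
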